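import Pool.Agent.helper57.SZ.M1

/-!
# MP_e07446_gt, module M2: obstruction theory
-/

namespace Pool.Agent.helper35.SZ
open scoped Classical
open Finset
noncomputable section

/-- telescoping: `∑ (u_c - 1) κ_c = ∏ u_c - 1` -/
theorem exists_kap {C R S : Type} [CommRing R] [CommRing S] (ev : R →+* S) (u : C → R)
    (hu : ∀ c, ev (u c) = 1) (s : Finset C) :
    ∃ kap : C → R, (∀ c, ev (kap c) = 1) ∧ ∑ c ∈ s, (u c - 1) * kap c = ∏ c ∈ s, u c - 1 := by
  induction s using Finset.induction_on with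
  | empty => exact ⟨fun _ => 1, fun _ => by simp, by simp⟩
  | insert a s ha ih =>
    obtain ⟨kap, h1, h2⟩ := ih
    refine ⟨fun c => if c = a then ∏ c ∈ s, u c else kap c, fun c => ?_, ?_⟩
    · dsimp only
      split_ifs
      · rw [map_prod]; exact Finset.prod_eq_one fun c _ => hu c
      · exact h1 c
    · rw [Finset.sum_insert ha, Finset.prod_insert ha]
      have h3 : ∑ c ∈ s, (u c - 1) * (if c = a then ∏ c ∈ s, u c else kap c)
          = ∑ c ∈ s, (u c - 1) * kap c := by
        refine Finset.sum_congr rfl fun c hc => ?_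
        rw [if_neg (fun (e : c = a) => ha (e ▸ hc))]
      rw [h3, h2]
      simp only [↓reduceIte]
      ring

theorem card_erase_gen {α : Type} {inst : DecidableEq α} {s : Finset α} {a : α} (h : a ∈ s) :
    (s.erase a).card + 1 = s.card := Finset.card_erase_add_one h

section enc
variable {α β : Type} [Fintype α] [Fintype β]

/-- complement of the left part -/
def LL (Z : Finset (α ⊕ β)) : Finset α := univ.filter fun c => Sum.inl c ∉ Z
/-- right part -/
def RR (Z : Finset (α ⊕ β)) : Finset β := univ.filter fun c => Sum.inr c ∈ Z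
/-- the set encoding a pair of labellings -/
def enc (m : Finset α) (m' : Finset β) : Finset (α ⊕ β) :=
  univ.filter fun a => Sum.elim (fun c => c ∉ m) (fun c => c ∈ m') a

theorem mem_LL {Z : Finset (α ⊕ β)} {c : α} : c ∈ LL Z ↔ Sum.inl c ∉ Z := by simp [LL]
theorem mem_RR {Z : Finset (α ⊕ β)} {c : β} : c ∈ RR Z ↔ Sum.inr c ∈ Z := by simp [RR]
theorem inl_mem_enc {m : Finset α} {m' : Finset β} {c : α} :
    Sum.inl c ∈ enc m m' ↔ c ∉ m := by simp [enc]
theorem inr_mem_enc {m : Finset α} {m' : Finset β} {c : β} :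
    Sum.inr c ∈ enc m m' ↔ c ∈ m' := by simp [enc]

theorem LL_enc (m : Finset α) (m' : Finset β) : LL (enc m m') = m := by
  ext c; rw [mem_LL, inl_mem_enc, not_not]
theorem RR_enc (m : Finset α) (m' : Finset β) : RR (enc m m') = m' := by
  ext c; rw [mem_RR, inr_mem_enc]
theorem enc_LL_RR (Z : Finset (α ⊕ β)) : enc (LL Z) (RR Z) = Z := by
  ext a
  rcases a with a | a
  · rw [inl_mem_enc, mem_LL, not_not]
  · rw [inr_mem_enc, mem_RR]

theorem enc_erase_inl {inst : DecidableEq (α ⊕ β)} (m : Finset α) (m' : Finset β) (c : α) :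
    (enc m m').erase (Sum.inl c) = enc (insert c m) m' := by
  ext a
  rw [Finset.mem_erase]
  rcases a with a | a
  · rw [inl_mem_enc, inl_mem_enc, Finset.mem_insert, ne_eq, Sum.inl.injEq]
    tauto
  · rw [inr_mem_enc, inr_mem_enc]
    simp

theorem enc_erase_inr {inst : DecidableEq (α ⊕ β)} (m : Finset α) (m' : Finset β) (c : β) :
    (enc m m').erase (Sum.inr c) = enc m (m'.erase c) := by
  ext a
  rw [Finset.mem_erase]
  rcases a with a | a
  · rw [inl_mem_enc, inl_mem_enc]
    simp
  · rw [inr_mem_enc, inr_mem_enc, Finset.mem_erase, ne_eq, Sum.inr.injEq]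

theorem card_enc (m : Finset α) (m' : Finset β) :
    ((enc m m').card : ℤ) = Fintype.card α - m.card + m'.card := by
  have h : enc m m' = (mᶜ).disjSum m' := by
    ext a
    rcases a with a | a
    · rw [inl_mem_enc]; simp
    · rw [inr_mem_enc]; simp
  rw [h, Finset.card_disjSum, Finset.card_compl]
  have := Finset.card_le_univ m
  push_cast [Nat.cast_sub this]
  ring

/-- the commutator with the diagonal part is the Koszul operator -/
theorem KK_enc {R : Type} [CommRing R] (w : α ⊕ β → R) (φ : Finset (α ⊕ β) → R)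
    (m : Finset α) (m' : Finset β) :
    KK w φ (enc m m') = (∑ c, if c ∉ m then w (Sum.inl c) * φ (enc (insert c m) m') else 0)
      + ∑ c, if c ∈ m' then φ (enc m (m'.erase c)) * w (Sum.inr c) else 0 := by
  unfold KK
  have h0 : ∀ F : α ⊕ β → R, ∑ a ∈ enc m m', F a = ∑ a, if a ∈ enc m m' then F a else 0 := by
    intro F
    rw [← Finset.sum_filter]
    congr 1
    ext a; simp
  rw [h0, Fintype.sum_sum_type]
  congr 1
  · refine Finset.sum_congr rfl fun c _ => ?_
    by_cases hc : c ∈ m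
    · rw [if_neg (by rw [inl_mem_enc]; exact fun h => h hc), if_neg (fun h => h hc)]
    · rw [if_pos (by rw [inl_mem_enc]; exact hc), if_pos hc, enc_erase_inl]
  · refine Finset.sum_congr rfl fun c _ => ?_
    by_cases hc : c ∈ m'
    · rw [if_pos (by rw [inr_mem_enc]; exact hc), if_pos hc, enc_erase_inr, mul_comm]
    · rw [if_neg (by rw [inr_mem_enc]; exact hc), if_neg hc]

end enc

/-! ### block computations -/

section blocks
variable {X H R : Type} [Fintype X] [CommRing R] {Ci : Finset X → Type} [∀ A, Fintype (Ci A)]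

theorem sum_block (I : Finset X) (F : (Σ A, Finset (Ci A)) → R)
    (hF : ∀ g, g.1 ≠ I → F g = 0) : ∑ g, F g = ∑ m : Finset (Ci I), F ⟨I, m⟩ := by
  rw [Fintype.sum_sigma, Fintype.sum_eq_single I]
  intro A hA
  exact Finset.sum_eq_zero fun m _ => hF _ hA

theorem sum_diag_left (T : (Σ A, Finset (Ci A)) → (Σ A, Finset (Ci A)) → R)
    (w : ∀ A, Ci A → R)
    (h3 : ∀ A (m m' : Finset (Ci A)), T ⟨A, m⟩ ⟨A, m'⟩ =
      ∑ c, if c ∉ m ∧ m' = insert c m then w A c else 0)
    (I : Finset X) (m : Finset (Ci I)) (F : Finset (Ci I) → R) :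
    ∑ m1 : Finset (Ci I), T ⟨I, m⟩ ⟨I, m1⟩ * F m1
      = ∑ c, if c ∉ m then w I c * F (insert c m) else 0 := by
  simp only [h3, Finset.sum_mul]
  rw [Finset.sum_comm]
  refine Finset.sum_congr rfl fun c _ => ?_
  by_cases hc : c ∈ m
  · rw [if_neg (fun h => h hc)]
    refine Finset.sum_eq_zero fun m1 _ => ?_
    rw [if_neg (fun h => h.1 hc), zero_mul]
  · rw [if_pos hc, Fintype.sum_eq_single (insert c m)]
    · rw [if_pos ⟨hc, rfl⟩]
    · intro m1 hm1
      rw [if_neg (fun h => hm1 h.2), zero_mul]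

theorem sum_diag_right (T : (Σ A, Finset (Ci A)) → (Σ A, Finset (Ci A)) → R)
    (w : ∀ A, Ci A → R)
    (h3 : ∀ A (m m' : Finset (Ci A)), T ⟨A, m⟩ ⟨A, m'⟩ =
      ∑ c, if c ∉ m ∧ m' = insert c m then w A c else 0)
    (J : Finset X) (m' : Finset (Ci J)) (F : Finset (Ci J) → R) :
    ∑ m1 : Finset (Ci J), F m1 * T ⟨J, m1⟩ ⟨J, m'⟩
      = ∑ c, if c ∈ m' then F (m'.erase c) * w J c else 0 := by
  simp only [h3, Finset.mul_sum]
  rw [Finset.sum_comm]
  refine Finset.sum_congr rfl fun c _ => ?_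
  by_cases hc : c ∈ m'
  · rw [if_pos hc, Fintype.sum_eq_single (m'.erase c)]
    · rw [if_pos ⟨Finset.notMem_erase c m', (Finset.insert_erase hc).symm⟩]
    · intro m1 hm1
      rw [if_neg, mul_zero]
      rintro ⟨h1, h2⟩
      apply hm1
      rw [h2, Finset.erase_insert h1]
  · rw [if_neg hc]
    refine Finset.sum_eq_zero fun m1 _ => ?_
    rw [if_neg, mul_zero]
    rintro ⟨-, h2⟩
    exact hc (h2 ▸ Finset.mem_insert_self c m1)

end blocks

/-! ### the induction step -/

section step
variable {X H : Type} [Fintype X] [Fintype H] (Ci : Finset X → Type)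
    [∀ A, Fintype (Ci A)] (cc : ∀ A, H → Ci A)

/-- the weight of a circle -/
def wt2 (A : Finset X) (c : Ci A) : MvPolynomial H (ZMod 2) :=
  ∏ h ∈ univ.filter (fun h => cc A h = c), MvPolynomial.X h - 1

/-- the half-edges of a circle -/
def cset (I J : Finset X) : Ci I ⊕ Ci J → Finset H :=
  Sum.elim (fun c => univ.filter (fun h => cc I h = c)) (fun c => univ.filter (fun h => cc J h = c))

/-- `M1` for one block -/
theorem block_exact (hcc : ∀ A, Function.Surjective (cc A)) (I J : Finset X) (k : ℕ)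
    (φ : Finset (Ci I ⊕ Ci J) → MvPolynomial H (ZMod 2))
    (hdeg : ∀ Z, φ Z ≠ 0 →
      2 * (Z.card : ℤ) = Fintype.card (Ci I) + Fintype.card (Ci J) - (k + 1))
    (hφ : ∀ Z, KK (fun a => ∏ h ∈ cset Ci cc I J a, MvPolynomial.X h - 1) φ Z = 0) :
    ∃ gg : Finset (Ci I ⊕ Ci J) → MvPolynomial H (ZMod 2),
      (∀ Z, φ Z = KK (fun a => ∏ h ∈ cset Ci cc I J a, MvPolynomial.X h - 1) gg Z) ∧
      ∀ Z, gg Z ≠ 0 →
        2 * (Z.card : ℤ) + 2 = Fintype.card (Ci I) + Fintype.card (Ci J) - (k + 1) := by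
  by_cases hq : ∃ q : ℕ, 2 * (q : ℤ) = Fintype.card (Ci I) + Fintype.card (Ci J) - (k + 1)
  · obtain ⟨q, hq⟩ := hq
    have key : ∃ B1 : Finset (Ci I ⊕ Ci J), (∀ a ∈ B1, ∀ b ∈ B1, a ≠ b →
        Disjoint (cset Ci cc I J a) (cset Ci cc I J b)) ∧
        (∀ a ∈ B1, (cset Ci cc I J a).Nonempty) ∧ q < B1.card := by
      rcases le_total (Fintype.card (Ci J)) (Fintype.card (Ci I)) with hle | hle
      · refine ⟨univ.map ⟨Sum.inl, Sum.inl_injective⟩, ?_, ?_, ?_⟩
        · intro a ha b hb hab
          simp only [Finset.mem_map, mem_univ, true_and, Function.Embedding.coeFn_mk] at ha hb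
          obtain ⟨a, rfl⟩ := ha
          obtain ⟨b, rfl⟩ := hb
          simp only [cset, Sum.elim_inl]
          rw [Finset.disjoint_left]
          intro h h1 h2
          simp only [Finset.mem_filter, mem_univ, true_and] at h1 h2
          exact hab (by rw [← h1, ← h2])
        · intro a ha
          simp only [Finset.mem_map, mem_univ, true_and, Function.Embedding.coeFn_mk] at ha
          obtain ⟨a, rfl⟩ := ha
          obtain ⟨h, hh⟩ := hcc I a
          exact ⟨h, by simp [cset, hh]⟩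
        · rw [Finset.card_map, Finset.card_univ]
          have : (Fintype.card (Ci J) : ℤ) ≤ Fintype.card (Ci I) := by exact_mod_cast hle
          omega
      · refine ⟨univ.map ⟨Sum.inr, Sum.inr_injective⟩, ?_, ?_, ?_⟩
        · intro a ha b hb hab
          simp only [Finset.mem_map, mem_univ, true_and, Function.Embedding.coeFn_mk] at ha hb
          obtain ⟨a, rfl⟩ := ha
          obtain ⟨b, rfl⟩ := hb
          simp only [cset, Sum.elim_inr]
          rw [Finset.disjoint_left]
          intro h h1 h2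
          simp only [Finset.mem_filter, mem_univ, true_and] at h1 h2
          exact hab (by rw [← h1, ← h2])
        · intro a ha
          simp only [Finset.mem_map, mem_univ, true_and, Function.Embedding.coeFn_mk] at ha
          obtain ⟨a, rfl⟩ := ha
          obtain ⟨h, hh⟩ := hcc J a
          exact ⟨h, by simp [cset, hh]⟩
        · rw [Finset.card_map, Finset.card_univ]
          have : (Fintype.card (Ci I) : ℤ) ≤ Fintype.card (Ci J) := by exact_mod_cast hle
          omega
    obtain ⟨B1, hB1, hB2, hB3⟩ := key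
    obtain ⟨g, hg⟩ := M1_exact (cset Ci cc I J) univ B1 (Finset.subset_univ _) hB1 hB2 q hB3 φ
      (fun Z _ _ => hφ Z)
    refine ⟨fun Z => if Z.card + 1 = q then g Z else 0, fun Z => ?_, fun Z hZ => ?_⟩
    · by_cases hZ : Z.card = q
      · rw [hg Z (Finset.subset_univ _) hZ]
        unfold KK
        refine Finset.sum_congr rfl fun a ha => ?_
        dsimp only
        rw [if_pos (by rw [card_erase_gen ha, hZ])]
      · have h0 : φ Z = 0 := by
          by_contra h
          have := hdeg Z h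
          omega
        rw [h0]
        unfold KK
        symm
        refine Finset.sum_eq_zero fun a ha => ?_
        dsimp only
        rw [if_neg (by rw [card_erase_gen ha]; exact hZ), mul_zero]
    · dsimp only at hZ
      split_ifs at hZ with h
      · omega
      · exact absurd rfl hZ
  · refine ⟨fun _ => 0, fun Z => ?_, fun Z hZ => absurd rfl hZ⟩
    have h0 : φ Z = 0 := by
      by_contra h
      exact hq ⟨Z.card, hdeg Z h⟩
    rw [h0]
    unfold KK
    symm
    exact Finset.sum_eq_zero fun a _ => mul_zero _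

variable (T : (Σ A, Finset (Ci A)) → (Σ A, Finset (Ci A)) → MvPolynomial H (ZMod 2))

/-- the degree -/
def dg2 (g : Σ A, Finset (Ci A)) : ℤ :=
  (Fintype.card (Ci g.1) : ℤ) - 2 * (g.2.card : ℤ) - g.1.card

theorem sum_TN_ne {T N : (Σ A, Finset (Ci A)) → (Σ A, Finset (Ci A)) → MvPolynomial H (ZMod 2)}
    {g g'' : Σ A, Finset (Ci A)} (h : ∑ g', T g g' * N g' g'' ≠ 0) :
    ∃ g', T g g' ≠ 0 ∧ N g' g'' ≠ 0 := by
  obtain ⟨g', -, hg'⟩ := Finset.exists_ne_zero_of_sum_ne_zero h
  exact ⟨g', left_ne_zero_of_mul hg', right_ne_zero_of_mul hg'⟩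

theorem M2_step (hcc : ∀ A, Function.Surjective (cc A))
    (h1 : ∀ g g', T g g' ≠ 0 → g.1 ⊆ g'.1)
    (h2 : ∀ g g', T g g' ≠ 0 → dg2 Ci g' + 2 = dg2 Ci g)
    (h3 : ∀ A (m m' : Finset (Ci A)), T ⟨A, m⟩ ⟨A, m'⟩ =
      ∑ c, if c ∉ m ∧ m' = insert c m then wt2 Ci cc A c else 0)
    (h4 : ∀ g g'', ∑ g', T g g' * T g' g'' = 0)
    (z : MvPolynomial H (ZMod 2)) (k : ℕ)
    (N : (Σ A, Finset (Ci A)) → (Σ A, Finset (Ci A)) → MvPolynomial H (ZMod 2))
    (n1 : ∀ g g', N g g' ≠ 0 → g.1 ⊆ g'.1)
    (n2 : ∀ g g', N g g' ≠ 0 → dg2 Ci g' = dg2 Ci g + 2)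
    (n3 : ∀ g g'', g''.1.card ≤ g.1.card + k →
      ∑ g', (T g g' * N g' g'' + N g g' * T g' g'') = if g = g'' then z else 0) :
    ∃ N' : (Σ A, Finset (Ci A)) → (Σ A, Finset (Ci A)) → MvPolynomial H (ZMod 2),
      (∀ g g', N' g g' ≠ 0 → g.1 ⊆ g'.1) ∧
      (∀ g g', N' g g' ≠ 0 → dg2 Ci g' = dg2 Ci g + 2) ∧
      (∀ A (m m' : Finset (Ci A)), N' ⟨A, m⟩ ⟨A, m'⟩ = N ⟨A, m⟩ ⟨A, m'⟩) ∧
      (∀ g g'', g''.1.card ≤ g.1.card + (k + 1) →
        ∑ g', (T g g' * N' g' g'' + N' g g' * T g' g'') = if g = g'' then z else 0) := by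
  -- the obstruction
  set Om : (Σ A, Finset (Ci A)) → (Σ A, Finset (Ci A)) → MvPolynomial H (ZMod 2) :=
    fun g g'' => ∑ g', (T g g' * N g' g'' + N g g' * T g' g'') + (if g = g'' then z else 0)
    with hOm
  have o1 : ∀ g g'', Om g g'' ≠ 0 → g.1 ⊆ g''.1 := by
    intro g g'' h
    by_contra hn
    apply h
    rw [hOm]
    simp only
    rw [Finset.sum_add_distrib]
    have e1 : ∑ g', T g g' * N g' g'' = 0 := by
      by_contra h'
      obtain ⟨g', a, b⟩ := sum_TN_ne Ci h'
      exact hn ((h1 _ _ a).trans (n1 _ _ b))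
    have e2 : ∑ g', N g g' * T g' g'' = 0 := by
      by_contra h'
      obtain ⟨g', a, b⟩ := sum_TN_ne Ci h'
      exact hn ((n1 _ _ a).trans (h1 _ _ b))
    have e3 : g ≠ g'' := by rintro rfl; exact hn (Finset.Subset.refl _)
    rw [e1, e2, if_neg e3, add_zero, add_zero]
  have o2 : ∀ g g'', Om g g'' ≠ 0 → dg2 Ci g'' = dg2 Ci g := by
    intro g g'' h
    by_contra hn
    apply h
    rw [hOm]
    simp only
    rw [Finset.sum_add_distrib]
    have e1 : ∑ g', T g g' * N g' g'' = 0 := by
      by_contra h'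
      obtain ⟨g', a, b⟩ := sum_TN_ne Ci h'
      have := h2 _ _ a
      have := n2 _ _ b
      exact hn (by omega)
    have e2 : ∑ g', N g g' * T g' g'' = 0 := by
      by_contra h'
      obtain ⟨g', a, b⟩ := sum_TN_ne Ci h'
      have := n2 _ _ a
      have := h2 _ _ b
      exact hn (by omega)
    have e3 : g ≠ g'' := by rintro rfl; exact hn rfl
    rw [e1, e2, if_neg e3, add_zero, add_zero]
  have o3 : ∀ g g'', g''.1.card ≤ g.1.card + k → Om g g'' = 0 := by
    intro g g'' h
    rw [hOm]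
    simp only
    rw [n3 g g'' h]
    exact CharTwo.add_self_eq_zero _
  -- it commutes with `T`
  have o4 : ∀ g g'', ∑ g', T g g' * Om g' g'' + ∑ g', Om g g' * T g' g'' = 0 := by
    let TM : Matrix (Σ A, Finset (Ci A)) (Σ A, Finset (Ci A)) (MvPolynomial H (ZMod 2)) := T
    let NM : Matrix (Σ A, Finset (Ci A)) (Σ A, Finset (Ci A)) (MvPolynomial H (ZMod 2)) := N
    let OM : Matrix (Σ A, Finset (Ci A)) (Σ A, Finset (Ci A)) (MvPolynomial H (ZMod 2)) := Om
    have hTT : TM * TM = 0 := by
      ext g g''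
      rw [Matrix.mul_apply]
      exact congrArg _ (h4 g g'')
    have hOM : OM = TM * NM + NM * TM + z • (1 : Matrix _ _ _) := by
      ext1 g g''
      rw [Matrix.add_apply, Matrix.add_apply, Matrix.mul_apply, Matrix.mul_apply,
        Matrix.smul_apply, Matrix.one_apply]
      show Om g g'' = _
      rw [hOm]
      simp only
      rw [Finset.sum_add_distrib, smul_eq_mul, mul_ite, mul_one, mul_zero]
    have hself : ∀ M : Matrix (Σ A, Finset (Ci A)) (Σ A, Finset (Ci A))
        (MvPolynomial H (ZMod 2)), M + M = 0 := by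
      intro M
      ext1 g g''
      exact CharTwo.add_self_eq_zero _
    have hc : TM * OM + OM * TM = 0 := by
      rw [hOM]
      have : TM * (TM * NM + NM * TM + z • (1 : Matrix _ _ _))
          + (TM * NM + NM * TM + z • (1 : Matrix _ _ _)) * TM
          = (TM * TM) * NM + NM * (TM * TM) + (TM * NM * TM + TM * NM * TM)
            + (z • TM + z • TM) := by
        rw [mul_add, mul_add, add_mul, add_mul, Matrix.mul_smul, Matrix.smul_mul, mul_one, one_mul,
          ← mul_assoc, ← mul_assoc, mul_assoc NM TM TM]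
        abel
      rw [this, hTT, hself, hself, zero_mul, mul_zero]
      simp
    intro g g''
    have h := congrFun (congrFun hc g) g''
    rw [Matrix.add_apply, Matrix.mul_apply, Matrix.mul_apply] at h
    exact h
  -- the blocks
  have hblock : ∀ I J : Finset X, ∃ gg : Finset (Ci I ⊕ Ci J) → MvPolynomial H (ZMod 2),
      I ⊆ J → J.card = I.card + (k + 1) →
      (∀ m m', Om ⟨I, m⟩ ⟨J, m'⟩ =
        (∑ c, if c ∉ m then wt2 Ci cc I c * gg (enc (insert c m) m') else 0)
        + ∑ c, if c ∈ m' then gg (enc m (m'.erase c)) * wt2 Ci cc J c else 0) ∧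
      ∀ Z, gg Z ≠ 0 →
        2 * (Z.card : ℤ) + 2 = Fintype.card (Ci I) + Fintype.card (Ci J) - (k + 1) := by
    intro I J
    by_cases hIJ : I ⊆ J ∧ J.card = I.card + (k + 1)
    · obtain ⟨hs, hcard⟩ := hIJ
      obtain ⟨gg, hg1, hg2⟩ := block_exact Ci cc hcc I J k (fun Z => Om ⟨I, LL Z⟩ ⟨J, RR Z⟩)
        (by
          intro Z hZ
          have h := o2 _ _ hZ
          unfold dg2 at h
          simp only at h
          have hc := card_enc (LL Z) (RR Z)
          rw [enc_LL_RR] at hc
          have hcard' : (J.card : ℤ) = I.card + (k + 1) := by exact_mod_cast hcard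
          omega)
        (by
          intro Z
          rw [← enc_LL_RR Z]
          rw [KK_enc]
          simp only [LL_enc, RR_enc]
          generalize LL Z = m
          generalize RR Z = m'
          have h := o4 ⟨I, m⟩ ⟨J, m'⟩
          rw [sum_block I (fun g' => T ⟨I, m⟩ g' * Om g' ⟨J, m'⟩) (by
              intro g hg
              by_contra hne
              have a := h1 _ _ (left_ne_zero_of_mul hne)
              have b := o1 _ _ (right_ne_zero_of_mul hne)
              have c : ¬ (J.card ≤ g.1.card + k) := fun hle => right_ne_zero_of_mul hne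
                (o3 g ⟨J, m'⟩ hle)
              have d : g.1.card ≤ I.card := by omega
              exact hg (Finset.eq_of_subset_of_card_le a d).symm),
            sum_block J (fun g' => Om ⟨I, m⟩ g' * T g' ⟨J, m'⟩) (by
              intro g hg
              by_contra hne
              have a := o1 _ _ (left_ne_zero_of_mul hne)
              have b := h1 _ _ (right_ne_zero_of_mul hne)
              have c : ¬ (g.1.card ≤ I.card + k) := fun hle => left_ne_zero_of_mul hne
                (o3 ⟨I, m⟩ g hle)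
              have d : J.card ≤ g.1.card := by omega
              exact hg (Finset.eq_of_subset_of_card_le b d))] at h
          rw [sum_diag_left T (wt2 Ci cc) h3 I m (fun m1 => Om ⟨I, m1⟩ ⟨J, m'⟩),
            sum_diag_right T (wt2 Ci cc) h3 J m' (fun m1 => Om ⟨I, m⟩ ⟨J, m1⟩)] at h
          exact h)
      refine ⟨gg, fun _ _ => ⟨fun m m' => ?_, hg2⟩⟩
      have h := hg1 (enc m m')
      rw [KK_enc] at h
      simp only [LL_enc, RR_enc] at h
      exact h
    · exact ⟨fun _ => 0, fun a b => absurd ⟨a, b⟩ hIJ⟩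
  choose gg hgg using hblock
  -- the correction
  set De : (Σ A, Finset (Ci A)) → (Σ A, Finset (Ci A)) → MvPolynomial H (ZMod 2) :=
    fun g g' => if g.1 ⊆ g'.1 ∧ g'.1.card = g.1.card + (k + 1) then
      gg g.1 g'.1 (enc g.2 g'.2) else 0 with hDe
  have d1 : ∀ g g', De g g' ≠ 0 → g.1 ⊆ g'.1 ∧ g'.1.card = g.1.card + (k + 1) := by
    intro g g' h
    rw [hDe] at h
    simp only at h
    split_ifs at h with h'
    · exact h'
    · exact absurd rfl h
  have d2 : ∀ g g', De g g' ≠ 0 → dg2 Ci g' = dg2 Ci g + 2 := by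
    intro g g' h
    obtain ⟨a, b⟩ := d1 g g' h
    have h' := h
    rw [hDe] at h'
    simp only at h'
    rw [if_pos ⟨a, b⟩] at h'
    have hc := (hgg g.1 g'.1 a b).2 _ h'
    rw [card_enc] at hc
    unfold dg2
    have hcard' : (g'.1.card : ℤ) = g.1.card + (k + 1) := by exact_mod_cast b
    omega
  refine ⟨fun g g' => N g g' + De g g', ?_, ?_, ?_, ?_⟩
  · intro g g' h
    by_cases hN : N g g' = 0
    · exact (d1 g g' (fun h' => h (by
        show N g g' + De g g' = 0
        rw [hN, h', add_zero]))).1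
    · exact n1 g g' hN
  · intro g g' h
    by_cases hN : N g g' = 0
    · exact d2 g g' (fun h' => h (by
        show N g g' + De g g' = 0
        rw [hN, h', add_zero]))
    · exact n2 g g' hN
  · intro A m m'
    have : De ⟨A, m⟩ ⟨A, m'⟩ = 0 := by
      by_contra h
      have := (d1 _ _ h).2
      simp only at this
      omega
    simp only [this, add_zero]
  · rintro ⟨I, m⟩ ⟨J, m'⟩ hle
    simp only at hle
    have hsplit : ∑ g', (T ⟨I, m⟩ g' * (N g' ⟨J, m'⟩ + De g' ⟨J, m'⟩)
          + (N ⟨I, m⟩ g' + De ⟨I, m⟩ g') * T g' ⟨J, m'⟩)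
        = ∑ g', (T ⟨I, m⟩ g' * N g' ⟨J, m'⟩ + N ⟨I, m⟩ g' * T g' ⟨J, m'⟩)
          + (∑ g', T ⟨I, m⟩ g' * De g' ⟨J, m'⟩ + ∑ g', De ⟨I, m⟩ g' * T g' ⟨J, m'⟩) := by
      rw [← Finset.sum_add_distrib, ← Finset.sum_add_distrib]
      exact Finset.sum_congr rfl fun g' _ => by ring
    rw [hsplit]
    by_cases hk : J.card ≤ I.card + k
    · have e1 : ∑ g', T ⟨I, m⟩ g' * De g' ⟨J, m'⟩ = 0 := by
        by_contra h'
        obtain ⟨g', a, b⟩ := sum_TN_ne Ci h'
        have a' := Finset.card_le_card (h1 _ _ a)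
        have b' := (d1 _ _ b).2
        simp only at a' b'
        omega
      have e2 : ∑ g', De ⟨I, m⟩ g' * T g' ⟨J, m'⟩ = 0 := by
        by_contra h'
        obtain ⟨g', a, b⟩ := sum_TN_ne Ci h'
        have a' := (d1 _ _ a).2
        have b' := Finset.card_le_card (h1 _ _ b)
        simp only at a' b'
        omega
      rw [e1, e2, add_zero, add_zero]
      exact n3 _ _ hk
    · have hcard : J.card = I.card + (k + 1) := by omega
      by_cases hs : I ⊆ J
      · rw [sum_block I (fun g' => T ⟨I, m⟩ g' * De g' ⟨J, m'⟩) (by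
              intro g hg
              by_contra hne
              have a := h1 _ _ (left_ne_zero_of_mul hne)
              have b := (d1 _ _ (right_ne_zero_of_mul hne)).2
              simp only at b
              have d : g.1.card ≤ I.card := by omega
              exact hg (Finset.eq_of_subset_of_card_le a d).symm),
            sum_block J (fun g' => De ⟨I, m⟩ g' * T g' ⟨J, m'⟩) (by
              intro g hg
              by_contra hne
              have a := (d1 _ _ (left_ne_zero_of_mul hne)).2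
              have b := h1 _ _ (right_ne_zero_of_mul hne)
              simp only at a
              have d : J.card ≤ g.1.card := by omega
              exact hg (Finset.eq_of_subset_of_card_le b d)),
            sum_diag_left T (wt2 Ci cc) h3 I m (fun m1 => De ⟨I, m1⟩ ⟨J, m'⟩),
            sum_diag_right T (wt2 Ci cc) h3 J m' (fun m1 => De ⟨I, m⟩ ⟨J, m1⟩)]
        have hDeq : ∀ m1 m2, De ⟨I, m1⟩ ⟨J, m2⟩ = gg I J (enc m1 m2) := by
          intro m1 m2
          rw [hDe]
          simp only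
          rw [if_pos ⟨hs, hcard⟩]
        simp only [hDeq]
        rw [← (hgg I J hs hcard).1 m m', hOm]
        simp only
        rw [← add_assoc, CharTwo.add_self_eq_zero, zero_add]
      · have hne : (⟨I, m⟩ : Σ A, Finset (Ci A)) ≠ ⟨J, m'⟩ := by
          intro e
          have : I = J := congrArg Sigma.fst e
          exact hs (this ▸ Finset.Subset.refl _)
        have e1 : ∑ g', T ⟨I, m⟩ g' * De g' ⟨J, m'⟩ = 0 := by
          by_contra h'
          obtain ⟨g', a, b⟩ := sum_TN_ne Ci h'
          exact hs ((h1 _ _ a).trans (d1 _ _ b).1)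
        have e2 : ∑ g', De ⟨I, m⟩ g' * T g' ⟨J, m'⟩ = 0 := by
          by_contra h'
          obtain ⟨g', a, b⟩ := sum_TN_ne Ci h'
          exact hs ((d1 _ _ a).1.trans (h1 _ _ b))
        have e3 : ∑ g', T ⟨I, m⟩ g' * N g' ⟨J, m'⟩ = 0 := by
          by_contra h'
          obtain ⟨g', a, b⟩ := sum_TN_ne Ci h'
          exact hs ((h1 _ _ a).trans (n1 _ _ b))
        have e4 : ∑ g', N ⟨I, m⟩ g' * T g' ⟨J, m'⟩ = 0 := by
          by_contra h'
          obtain ⟨g', a, b⟩ := sum_TN_ne Ci h'
          exact hs ((n1 _ _ a).trans (h1 _ _ b))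
        rw [Finset.sum_add_distrib, e1, e2, e3, e4, if_neg hne]
        simp

end step

/-! ### the theorem -/

theorem base_pair {C R : Type} [CommRing R] [CharP R 2] (m m'' : Finset C) (c c' : C) (x : R) :
    (if c ∉ m then (if c' ∈ insert c m ∧ m'' = (insert c m).erase c' then x else 0) else 0)
      + (if c ∈ m'' then (if c' ∈ m ∧ m''.erase c = m.erase c' then x else 0) else 0)
      = if c = c' ∧ m = m'' then x else 0 := by
  by_cases hcc : c = c'
  · subst hcc
    by_cases hm : m = m''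
    · subst hm
      by_cases hc : c ∈ m
      · simp [hc]
      · simp [hc]
    · rw [if_neg (fun h : c = c ∧ m = m'' => hm h.2)]
      by_cases hc : c ∈ m
      · rw [if_neg (fun h => h hc)]
        by_cases hc'' : c ∈ m''
        · rw [if_pos hc'', if_neg, add_zero]
          rintro ⟨-, h⟩
          apply hm
          rw [← Finset.insert_erase hc, ← Finset.insert_erase hc'', h]
        · rw [if_neg hc'', add_zero]
      · rw [if_pos hc, if_neg, zero_add]
        · by_cases hc'' : c ∈ m''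
          · rw [if_pos hc'', if_neg (fun h => hc h.1)]
          · rw [if_neg hc'']
        · rintro ⟨-, h⟩
          rw [Finset.erase_insert hc] at h
          exact hm h.symm
  · rw [if_neg (fun h : c = c' ∧ m = m'' => hcc h.1)]
    have key : (c ∉ m ∧ (c' ∈ insert c m ∧ m'' = (insert c m).erase c'))
        ↔ (c ∈ m'' ∧ (c' ∈ m ∧ m''.erase c = m.erase c')) := by
      constructor
      · rintro ⟨h1, h2, h3⟩
        have h4 : c' ∈ m := (Finset.mem_insert.1 h2).resolve_left (Ne.symm hcc)
        refine ⟨?_, h4, ?_⟩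
        · rw [h3, Finset.mem_erase]; exact ⟨hcc, Finset.mem_insert_self _ _⟩
        · rw [h3, Finset.erase_right_comm, Finset.erase_insert h1]
      · rintro ⟨h1, h2, h3⟩
        have h4 : c ∉ m := by
          intro h4
          have : c ∈ m.erase c' := Finset.mem_erase.2 ⟨hcc, h4⟩
          rw [← h3] at this
          exact (Finset.notMem_erase c m'') this
        refine ⟨h4, Finset.mem_insert_of_mem h2, ?_⟩
        rw [← Finset.insert_erase h1, h3, Finset.erase_insert_of_ne hcc]
    rw [← ite_and, ← ite_and]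
    by_cases h : c ∉ m ∧ (c' ∈ insert c m ∧ m'' = (insert c m).erase c')
    · rw [if_pos h, if_pos (key.1 h)]
      exact CharTwo.add_self_eq_zero x
    · rw [if_neg h, if_neg (fun h' => h (key.2 h')), add_zero]

theorem M2_homotopy {X H : Type} [Fintype X] [Fintype H] (Ci : Finset X → Type)
    [∀ A, Fintype (Ci A)] (cc : ∀ A, H → Ci A) (hcc : ∀ A, Function.Surjective (cc A))
    (T : (Σ A, Finset (Ci A)) → (Σ A, Finset (Ci A)) → MvPolynomial H (ZMod 2))
    (h1 : ∀ g g', T g g' ≠ 0 → g.1 ⊆ g'.1)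
    (h2 : ∀ g g', T g g' ≠ 0 →
      (Fintype.card (Ci g'.1) : ℤ) - 2 * (g'.2.card : ℤ) - g'.1.card + 2 =
      (Fintype.card (Ci g.1) : ℤ) - 2 * (g.2.card : ℤ) - g.1.card)
    (h3 : ∀ A (m m' : Finset (Ci A)), T ⟨A, m⟩ ⟨A, m'⟩ =
      ∑ c, if c ∉ m ∧ m' = insert c m then
        (∏ h ∈ univ.filter (fun h => cc A h = c), MvPolynomial.X h - 1) else 0)
    (h4 : ∀ g g'', ∑ g', T g g' * T g' g'' = 0) :
    ∃ N : (Σ A, Finset (Ci A)) → (Σ A, Finset (Ci A)) → MvPolynomial H (ZMod 2),
      (∀ g g', N g g' ≠ 0 → g.1 ⊆ g'.1) ∧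
      (∀ g g', N g g' ≠ 0 →
        (Fintype.card (Ci g'.1) : ℤ) - 2 * (g'.2.card : ℤ) - g'.1.card =
        (Fintype.card (Ci g.1) : ℤ) - 2 * (g.2.card : ℤ) - g.1.card + 2) ∧
      (∀ A (m m' : Finset (Ci A)), MvPolynomial.eval (fun _ => 1) (N ⟨A, m⟩ ⟨A, m'⟩) =
        ∑ c, if c ∈ m ∧ m' = m.erase c then (1 : ZMod 2) else 0) ∧
      (∀ g g'', ∑ g', (T g g' * N g' g'' + N g g' * T g' g'') =
        if g = g'' then ∏ h, MvPolynomial.X h - 1 else 0) := by
  -- the diagonal part
  have hk : ∀ A : Finset X, ∃ kap : Ci A → MvPolynomial H (ZMod 2),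
      (∀ c, MvPolynomial.eval (fun _ => 1) (kap c) = 1) ∧
      ∑ c, wt2 Ci cc A c * kap c = ∏ h, MvPolynomial.X h - 1 := by
    intro A
    obtain ⟨kap, a, b⟩ := exists_kap (MvPolynomial.eval (fun _ => (1 : ZMod 2)))
      (fun c : Ci A => ∏ h ∈ univ.filter (fun h => cc A h = c), (MvPolynomial.X h))
      (by
        intro c
        rw [map_prod]
        exact Finset.prod_eq_one fun h _ => by simp) univ
    refine ⟨kap, a, ?_⟩
    have hf := Finset.prod_fiberwise (univ : Finset H) (cc A)
      (fun h => (MvPolynomial.X h : MvPolynomial H (ZMod 2)))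
    rw [← hf]
    exact b
  choose kap hk1 hk2 using hk
  set N0 : (Σ A, Finset (Ci A)) → (Σ A, Finset (Ci A)) → MvPolynomial H (ZMod 2) :=
    fun g g' => ∑ c : Ci g.1, if c ∈ g.2 ∧ g' = ⟨g.1, g.2.erase c⟩ then kap g.1 c else 0 with hN0
  have hN0d : ∀ A (m m' : Finset (Ci A)), N0 ⟨A, m⟩ ⟨A, m'⟩ =
      ∑ c, if c ∈ m ∧ m' = m.erase c then kap A c else 0 := by
    intro A m m'
    rw [hN0]
    refine Finset.sum_congr rfl fun c _ => ?_
    simp only [Sigma.mk.injEq, heq_eq_eq, true_and]
  have hN0n : ∀ g g', N0 g g' ≠ 0 → ∃ c ∈ g.2, g' = ⟨g.1, g.2.erase c⟩ := by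
    intro g g' h
    obtain ⟨c, -, hc⟩ := Finset.exists_ne_zero_of_sum_ne_zero h
    split_ifs at hc with h'
    · exact ⟨c, h'.1, h'.2⟩
    · exact absurd rfl hc
  have n1 : ∀ g g', N0 g g' ≠ 0 → g.1 ⊆ g'.1 := by
    intro g g' h
    obtain ⟨c, -, rfl⟩ := hN0n g g' h
    exact Finset.Subset.refl _
  have n1' : ∀ g g', N0 g g' ≠ 0 → g'.1 = g.1 := by
    intro g g' h
    obtain ⟨c, -, rfl⟩ := hN0n g g' h
    rfl
  have n2 : ∀ g g', N0 g g' ≠ 0 → dg2 Ci g' = dg2 Ci g + 2 := by
    intro g g' h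
    obtain ⟨c, hc, rfl⟩ := hN0n g g' h
    unfold dg2
    simp only
    have := Finset.card_erase_add_one hc
    omega
  have h2' : ∀ g g', T g g' ≠ 0 → dg2 Ci g' + 2 = dg2 Ci g := h2
  have h3' : ∀ A (m m' : Finset (Ci A)), T ⟨A, m⟩ ⟨A, m'⟩ =
      ∑ c, if c ∉ m ∧ m' = insert c m then wt2 Ci cc A c else 0 := h3
  have n3 : ∀ g g'', g''.1.card ≤ g.1.card + 0 →
      ∑ g', (T g g' * N0 g' g'' + N0 g g' * T g' g'') =
        if g = g'' then (∏ h, MvPolynomial.X h - 1) else 0 := by
    rintro ⟨A, m⟩ ⟨B, m''⟩ hle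
    simp only [add_zero] at hle
    by_cases hAB : A ⊆ B
    · obtain rfl : A = B := Finset.eq_of_subset_of_card_le hAB hle
      rw [Finset.sum_add_distrib, sum_block A (fun g' => T ⟨A, m⟩ g' * N0 g' ⟨A, m''⟩) (by
          intro g hg
          by_contra hne
          exact hg (n1' _ _ (right_ne_zero_of_mul hne)).symm),
        sum_block A (fun g' => N0 ⟨A, m⟩ g' * T g' ⟨A, m''⟩) (by
          intro g hg
          by_contra hne
          exact hg (n1' _ _ (left_ne_zero_of_mul hne))),
        sum_diag_left T (wt2 Ci cc) h3' A m (fun m1 => N0 ⟨A, m1⟩ ⟨A, m''⟩),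
        sum_diag_right T (wt2 Ci cc) h3' A m'' (fun m1 => N0 ⟨A, m⟩ ⟨A, m1⟩)]
      simp only [hN0d]
      have e1 : ∀ c : Ci A, (if c ∉ m then wt2 Ci cc A c *
          ∑ c', (if c' ∈ insert c m ∧ m'' = (insert c m).erase c' then kap A c' else 0) else 0)
          = ∑ c', if c ∉ m then (if c' ∈ insert c m ∧ m'' = (insert c m).erase c' then
            wt2 Ci cc A c * kap A c' else 0) else 0 := by
        intro c
        split_ifs with h
        · exact Finset.sum_const_zero.symm
        · rw [Finset.mul_sum]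
          exact Finset.sum_congr rfl fun c' _ => by rw [mul_ite, mul_zero]
      have e2 : ∀ c : Ci A, (if c ∈ m'' then
          (∑ c', (if c' ∈ m ∧ m''.erase c = m.erase c' then kap A c' else 0)) * wt2 Ci cc A c
            else 0)
          = ∑ c', if c ∈ m'' then (if c' ∈ m ∧ m''.erase c = m.erase c' then
            wt2 Ci cc A c * kap A c' else 0) else 0 := by
        intro c
        split_ifs with h
        · rw [Finset.sum_mul]
          exact Finset.sum_congr rfl fun c' _ => by rw [ite_mul, zero_mul, mul_comm]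
        · exact Finset.sum_const_zero.symm
      rw [Finset.sum_congr rfl fun c _ => e1 c, Finset.sum_congr rfl fun c _ => e2 c,
        ← Finset.sum_add_distrib]
      have e3 : ∀ c : Ci A, (∑ c', (if c ∉ m then
            (if c' ∈ insert c m ∧ m'' = (insert c m).erase c' then
            wt2 Ci cc A c * kap A c' else 0) else 0)
          + ∑ c', if c ∈ m'' then (if c' ∈ m ∧ m''.erase c = m.erase c' then
            wt2 Ci cc A c * kap A c' else 0) else 0)
          = if m = m'' then wt2 Ci cc A c * kap A c else 0 := by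
        intro c
        rw [← Finset.sum_add_distrib, Finset.sum_congr rfl fun c' _ =>
          base_pair m m'' c c' (wt2 Ci cc A c * kap A c')]
        rw [Fintype.sum_eq_single c]
        · simp
        · intro c' hc'
          rw [if_neg (fun h => hc' h.1.symm)]
      rw [Finset.sum_congr rfl fun c _ => e3 c]
      by_cases hm : m = m''
      · subst hm
        simp only [if_true]
        exact hk2 A
      · simp only [if_neg hm, Finset.sum_const_zero]
        rw [if_neg]
        intro h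
        simp only [Sigma.mk.injEq, heq_eq_eq, true_and] at h
        exact hm h
    · have hne : (⟨A, m⟩ : Σ A, Finset (Ci A)) ≠ ⟨B, m''⟩ := by
        intro e
        have : A = B := congrArg Sigma.fst e
        exact hAB (this ▸ Finset.Subset.refl _)
      have e3 : ∑ g', T ⟨A, m⟩ g' * N0 g' ⟨B, m''⟩ = 0 := by
        by_contra h'
        obtain ⟨g', a, b⟩ := sum_TN_ne Ci h'
        exact hAB ((h1 _ _ a).trans (n1 _ _ b))
      have e4 : ∑ g', N0 ⟨A, m⟩ g' * T g' ⟨B, m''⟩ = 0 := by
        by_contra h'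
        obtain ⟨g', a, b⟩ := sum_TN_ne Ci h'
        exact hAB ((n1 _ _ a).trans (h1 _ _ b))
      rw [Finset.sum_add_distrib, e3, e4, if_neg hne, add_zero]
  -- induction
  have hind : ∀ k : ℕ, ∃ N : (Σ A, Finset (Ci A)) → (Σ A, Finset (Ci A)) →
      MvPolynomial H (ZMod 2),
      (∀ g g', N g g' ≠ 0 → g.1 ⊆ g'.1) ∧
      (∀ g g', N g g' ≠ 0 → dg2 Ci g' = dg2 Ci g + 2) ∧
      (∀ A (m m' : Finset (Ci A)), N ⟨A, m⟩ ⟨A, m'⟩ = N0 ⟨A, m⟩ ⟨A, m'⟩) ∧
      (∀ g g'', g''.1.card ≤ g.1.card + k →
        ∑ g', (T g g' * N g' g'' + N g g' * T g' g'') =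
          if g = g'' then (∏ h, MvPolynomial.X h - 1) else 0) := by
    intro k
    induction k with
    | zero => exact ⟨N0, n1, n2, fun _ _ _ => rfl, n3⟩
    | succ k ih =>
      obtain ⟨N, a1, a2, a3, a4⟩ := ih
      obtain ⟨N', b1, b2, b3, b4⟩ := M2_step Ci cc T hcc h1 h2' h3' h4 _ k N a1 a2 a4
      exact ⟨N', b1, b2, fun A m m' => (b3 A m m').trans (a3 A m m'), b4⟩
  obtain ⟨N, a1, a2, a3, a4⟩ := hind (Fintype.card X)
  refine ⟨N, a1, a2, fun A m m' => ?_, fun g g'' => a4 g g'' ?_⟩
  · rw [a3, hN0d, map_sum]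
    refine Finset.sum_congr rfl fun c _ => ?_
    rw [apply_ite (MvPolynomial.eval fun _ => (1 : ZMod 2)), hk1, map_zero]
  · exact (Finset.card_le_univ _).trans (Nat.le_add_left _ _)

end
end Pool.Agent.helper35.SZ
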